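import Mathlib

/-!
# EHP (MP_ff60c2_an): the smooth profile `B`

`prof d : ℝ → ℝ` (`d > 0`) is `C^∞`, convex, `= 2d` on `(-∞, d]`, `= id` on `[3d, ∞)`, `0 ≤ prof' ≤ 1`, `max (2d) t ≤ prof d t ≤ max (3d) t`.
-/

set_option autoImplicit false

open MeasureTheory Set intervalIntegral Real
open scoped Interval ContDiff

noncomputable section

namespace Pool.Agent.H64.EH

theorem st_add_symm (x : ℝ) : smoothTransition x + smoothTransition (1 - x) = 1 := by
  unfold smoothTransition
  rw [sub_sub_cancel]
  have h := smoothTransition.pos_denom x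
  rw [add_comm (expNegInvGlue (1 - x)) (expNegInvGlue x)]
  field_simp

theorem st_int : ∫ x in (0 : ℝ)..1, smoothTransition x = 1 / 2 := by
  have hi : ∀ a b : ℝ, IntervalIntegrable smoothTransition volume a b := fun a b =>
    smoothTransition.continuous.intervalIntegrable a b
  have h1 : ∫ x in (0 : ℝ)..1, smoothTransition (1 - x) = ∫ x in (0 : ℝ)..1, smoothTransition x := by
    rw [intervalIntegral.integral_comp_sub_left (fun x => smoothTransition x) 1]
    simp
  have h2 : ∫ x in (0 : ℝ)..1, (smoothTransition x + smoothTransition (1 - x)) = 1 := by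
    simp_rw [st_add_symm]
    simp
  have hc : Continuous fun x : ℝ => smoothTransition (1 - x) :=
    smoothTransition.continuous.comp (by fun_prop)
  rw [intervalIntegral.integral_add (hi 0 1) (hc.intervalIntegrable 0 1), h1] at h2
  linarith

/-- the primitive of the smooth transition -/
def K0 (x : ℝ) : ℝ := ∫ t in (0 : ℝ)..x, smoothTransition t

theorem hasDerivAt_K0 (x : ℝ) : HasDerivAt K0 (smoothTransition x) x :=
  intervalIntegral.integral_hasDerivAt_right (smoothTransition.continuous.intervalIntegrable _ _)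
    (smoothTransition.continuous.stronglyMeasurableAtFilter _ _) smoothTransition.continuous.continuousAt

theorem K0_of_nonpos {x : ℝ} (hx : x ≤ 0) : K0 x = 0 := by
  unfold K0
  rw [intervalIntegral.integral_congr (g := fun _ => (0 : ℝ))]
  · simp
  · intro t ht
    rw [uIcc_of_ge hx] at ht
    exact smoothTransition.zero_of_nonpos ht.2

theorem K0_of_one_le {x : ℝ} (hx : 1 ≤ x) : K0 x = x - 1 / 2 := by
  unfold K0
  have hi : ∀ a b : ℝ, IntervalIntegrable smoothTransition volume a b := fun a b =>
    smoothTransition.continuous.intervalIntegrable a b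
  rw [← intervalIntegral.integral_add_adjacent_intervals (hi 0 1) (hi 1 x), st_int,
    intervalIntegral.integral_congr (a := 1) (b := x) (g := fun _ => (1 : ℝ))]
  · simp
    ring
  · intro t ht
    rw [uIcc_of_le hx] at ht
    exact smoothTransition.one_of_one_le ht.1

theorem contDiff_K0 : ContDiff ℝ ∞ K0 := by
  rw [contDiff_infty_iff_deriv]
  refine ⟨fun x => (hasDerivAt_K0 x).differentiableAt, ?_⟩
  have : deriv K0 = smoothTransition := funext fun x => (hasDerivAt_K0 x).deriv
  rw [this]
  exact smoothTransition.contDiff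

/-- the profile -/
def prof (d t : ℝ) : ℝ := 2 * d + 2 * d * K0 ((t - d) / (2 * d))

/-- its derivative -/
def prof' (d t : ℝ) : ℝ := smoothTransition ((t - d) / (2 * d))

variable {d : ℝ}

theorem hasDerivAt_prof (hd : 0 < d) (t : ℝ) : HasDerivAt (prof d) (prof' d t) t := by
  have h1 : HasDerivAt (fun t : ℝ => (t - d) / (2 * d)) (1 / (2 * d)) t :=
    ((hasDerivAt_id t).sub_const d).div_const (2 * d)
  have h2 := ((hasDerivAt_K0 ((t - d) / (2 * d))).comp t h1).const_mul (2 * d)
  have h3 := h2.const_add (2 * d)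
  refine h3.congr_deriv ?_
  unfold prof'
  field_simp

theorem contDiff_prof : ContDiff ℝ ∞ (prof d) := by
  have h : ContDiff ℝ ∞ (fun t : ℝ => (t - d) / (2 * d)) := by fun_prop
  exact contDiff_const.add (contDiff_const.mul (contDiff_K0.comp h))

theorem contDiff_prof' : ContDiff ℝ ∞ (prof' d) := by
  have h : ContDiff ℝ ∞ (fun t : ℝ => (t - d) / (2 * d)) := by fun_prop
  exact (smoothTransition.contDiff (n := ⊤)).comp h

theorem deriv_prof (hd : 0 < d) : deriv (prof d) = prof' d :=
  funext fun t => (hasDerivAt_prof hd t).deriv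

theorem prof'_nonneg (t : ℝ) : 0 ≤ prof' d t := smoothTransition.nonneg _

theorem prof'_le_one (t : ℝ) : prof' d t ≤ 1 := smoothTransition.le_one _

theorem prof'_mono (hd : 0 < d) : Monotone (prof' d) := by
  intro s t hst
  refine smoothTransition.monotone ?_
  gcongr

theorem deriv_prof'_nonneg (hd : 0 < d) (t : ℝ) : 0 ≤ deriv (prof' d) t :=
  (prof'_mono hd).deriv_nonneg

theorem prof_mono (hd : 0 < d) : Monotone (prof d) := by
  refine monotone_of_deriv_nonneg (fun t => (hasDerivAt_prof hd t).differentiableAt) fun t => ?_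
  rw [deriv_prof hd]
  exact prof'_nonneg t

theorem prof_of_le (hd : 0 < d) {t : ℝ} (ht : t ≤ d) : prof d t = 2 * d := by
  unfold prof
  rw [K0_of_nonpos, mul_zero, add_zero]
  exact div_nonpos_of_nonpos_of_nonneg (by linarith) (by linarith)

theorem prof_of_ge (hd : 0 < d) {t : ℝ} (ht : 3 * d ≤ t) : prof d t = t := by
  unfold prof
  rw [K0_of_one_le]
  · field_simp
    ring
  · rw [le_div_iff₀ (by linarith)]
    linarith

theorem prof'_of_le (hd : 0 < d) {t : ℝ} (ht : t ≤ d) : prof' d t = 0 :=
  smoothTransition.zero_of_nonpos (div_nonpos_of_nonpos_of_nonneg (by linarith) (by linarith))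

theorem prof'_of_ge (hd : 0 < d) {t : ℝ} (ht : 3 * d ≤ t) : prof' d t = 1 := by
  refine smoothTransition.one_of_one_le ?_
  rw [le_div_iff₀ (by linarith)]
  linarith

theorem two_le_prof (hd : 0 < d) (t : ℝ) : 2 * d ≤ prof d t := by
  rcases le_total t d with h | h
  · exact (prof_of_le hd h).ge
  · calc 2 * d = prof d d := (prof_of_le hd le_rfl).symm
      _ ≤ prof d t := prof_mono hd h

theorem le_prof (hd : 0 < d) (t : ℝ) : t ≤ prof d t := by
  rcases le_total (3 * d) t with h | h
  · exact (prof_of_ge hd h).ge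
  · have hanti : Antitone fun t => prof d t - t := by
      refine antitone_of_deriv_nonpos
        (fun t => ((hasDerivAt_prof hd t).sub (hasDerivAt_id t)).differentiableAt) fun t => ?_
      have h0 := ((hasDerivAt_prof hd t).sub (hasDerivAt_id t)).deriv
      change deriv (prof d - id) t ≤ 0
      rw [h0]
      linarith [prof'_le_one (d := d) t]
    have h1 := hanti h
    simp only at h1
    rw [prof_of_ge hd le_rfl] at h1
    linarith

theorem prof_le (hd : 0 < d) (t : ℝ) : prof d t ≤ max (3 * d) t := by
  rcases le_total (3 * d) t with h | h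
  · rw [prof_of_ge hd h]
    exact le_max_right _ _
  · calc prof d t ≤ prof d (3 * d) := prof_mono hd h
      _ = 3 * d := prof_of_ge hd le_rfl
      _ ≤ _ := le_max_left _ _

theorem deriv_prof'_of_le (hd : 0 < d) {t : ℝ} (ht : t ≤ d) : deriv (prof' d) t = 0 := by
  have h1 : HasDerivAt (prof' d) (deriv (prof' d) t) t :=
    ((contDiff_prof' (d := d)).differentiable (by simp)).differentiableAt.hasDerivAt
  have h2 : HasDerivWithinAt (prof' d) (deriv (prof' d) t) (Iic t) t := h1.hasDerivWithinAt
  have h3 : HasDerivWithinAt (prof' d) 0 (Iic t) t := by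
    refine (hasDerivWithinAt_const t (Iic t) (0 : ℝ)).congr (fun s hs => ?_) ?_
    · exact prof'_of_le hd (le_trans hs ht)
    · exact prof'_of_le hd ht
  exact (uniqueDiffWithinAt_Iic t).eq_deriv _ h2 h3

theorem deriv_prof'_of_ge (hd : 0 < d) {t : ℝ} (ht : 3 * d ≤ t) : deriv (prof' d) t = 0 := by
  have h1 : HasDerivAt (prof' d) (deriv (prof' d) t) t :=
    ((contDiff_prof' (d := d)).differentiable (by simp)).differentiableAt.hasDerivAt
  have h2 : HasDerivWithinAt (prof' d) (deriv (prof' d) t) (Ici t) t := h1.hasDerivWithinAt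
  have h3 : HasDerivWithinAt (prof' d) 0 (Ici t) t := by
    refine (hasDerivWithinAt_const t (Ici t) (1 : ℝ)).congr (fun s hs => ?_) ?_
    · exact prof'_of_ge hd (ht.trans hs)
    · exact prof'_of_ge hd ht
  exact (uniqueDiffWithinAt_Ici t).eq_deriv _ h2 h3

/-- `∫ prof'' = 1` -/
theorem int_deriv_prof' (hd : 0 < d) : ∫ t in d..3 * d, deriv (prof' d) t = 1 := by
  have hc : Continuous (deriv (prof' d)) := by
    have := (contDiff_prof' (d := d))
    exact (contDiff_infty_iff_deriv.1 this).2.continuous
  rw [intervalIntegral.integral_deriv_eq_sub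
    (fun t _ => ((contDiff_prof' (d := d)).differentiable (by simp)).differentiableAt)
    (hc.intervalIntegrable _ _), prof'_of_ge hd le_rfl, prof'_of_le hd le_rfl]
  norm_num

end Pool.Agent.H64.EH
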