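import Mathlib
import Pool.Agent.H23.EH.E1
import Pool.Agent.H64.EH.Prof

/-!
# EHP (MP_ff60c2_an): smooth truncations `β (y (l, φ))` are `C²` on the whole `(l, φ)` plane

`LocHarm y b`: near every point either `y ≤ b`, or `y` is `C²` and harmonic. For a `C²` function `β` which is constant on `(-∞, b]` the function
`G = β ∘ y` is `C²` on `ℝ × ℝ` and `G_ll + G_φφ = β''(y) (y_l² + y_φ²)`.

`yQ Q (l, φ) = (1/n) log |Q(e^{l + iφ})|` satisfies `LocHarm (yQ Q) b` for every `b ≥ 0`; it is `2π`-periodic.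
-/

set_option autoImplicit false

open MeasureTheory Set Polynomial Filter Topology
open scoped Real ContDiff

noncomputable section

namespace Pool.Agent.H64.EH

open Pool.Agent.H23.EH (d1 d2)

/-- near every point either `y ≤ b`, or `y` is `C²` and harmonic -/
def LocHarm (y : ℝ × ℝ → ℝ) (b : ℝ) : Prop :=
  ∀ x, (∀ᶠ x' in 𝓝 x, y x' ≤ b) ∨ (ContDiffAt ℝ 2 y x ∧ d1 (d1 y) x + d2 (d2 y) x = 0)

theorem contDiff_trunc {y : ℝ × ℝ → ℝ} {b c : ℝ} {β : ℝ → ℝ} (hβ : ContDiff ℝ 2 β)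
    (hb : ∀ t ≤ b, β t = c) (hy : LocHarm y b) : ContDiff ℝ 2 (fun x => β (y x)) := by
  rw [contDiff_iff_contDiffAt]
  intro x
  rcases hy x with h | ⟨h, _⟩
  · refine (contDiffAt_const (c := c)).congr_of_eventuallyEq ?_
    filter_upwards [h] with x' hx'
    exact hb _ hx'
  · exact hβ.contDiffAt.comp x h

section derivs

theorem d1_congr {f g : ℝ × ℝ → ℝ} {x : ℝ × ℝ} (h : f =ᶠ[𝓝 x] g) : d1 f x = d1 g x := by
  unfold d1
  rw [h.fderiv_eq]

theorem d2_congr {f g : ℝ × ℝ → ℝ} {x : ℝ × ℝ} (h : f =ᶠ[𝓝 x] g) : d2 f x = d2 g x := by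
  unfold d2
  rw [h.fderiv_eq]

theorem d1_eventually {f g : ℝ × ℝ → ℝ} {x : ℝ × ℝ} (h : f =ᶠ[𝓝 x] g) : d1 f =ᶠ[𝓝 x] d1 g := by
  filter_upwards [h.fderiv (𝕜 := ℝ)] with x' hx'
  unfold d1
  rw [hx']

theorem d2_eventually {f g : ℝ × ℝ → ℝ} {x : ℝ × ℝ} (h : f =ᶠ[𝓝 x] g) : d2 f =ᶠ[𝓝 x] d2 g := by
  filter_upwards [h.fderiv (𝕜 := ℝ)] with x' hx'
  unfold d2
  rw [hx']

theorem d1_const (c : ℝ) (x : ℝ × ℝ) : d1 (fun _ => c) x = 0 := by
  simp [d1]

theorem d2_const (c : ℝ) (x : ℝ × ℝ) : d2 (fun _ => c) x = 0 := by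
  simp [d2]

theorem d1_comp {β : ℝ → ℝ} {y : ℝ × ℝ → ℝ} {x : ℝ × ℝ} (hβ : DifferentiableAt ℝ β (y x))
    (hy : DifferentiableAt ℝ y x) : d1 (fun z => β (y z)) x = deriv β (y x) * d1 y x := by
  have h := (hβ.hasDerivAt.comp_hasFDerivAt x hy.hasFDerivAt).fderiv
  change fderiv ℝ (β ∘ y) x (1, 0) = _
  rw [h]
  simp [d1]

theorem d2_comp {β : ℝ → ℝ} {y : ℝ × ℝ → ℝ} {x : ℝ × ℝ} (hβ : DifferentiableAt ℝ β (y x))
    (hy : DifferentiableAt ℝ y x) : d2 (fun z => β (y z)) x = deriv β (y x) * d2 y x := by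
  have h := (hβ.hasDerivAt.comp_hasFDerivAt x hy.hasFDerivAt).fderiv
  change fderiv ℝ (β ∘ y) x (0, 1) = _
  rw [h]
  simp [d2]

theorem contDiffAt_d1 {y : ℝ × ℝ → ℝ} {x : ℝ × ℝ} (h : ContDiffAt ℝ 2 y x) :
    ContDiffAt ℝ 1 (d1 y) x :=
  (h.fderiv_right (m := 1) (by norm_num)).clm_apply contDiffAt_const

theorem contDiffAt_d2 {y : ℝ × ℝ → ℝ} {x : ℝ × ℝ} (h : ContDiffAt ℝ 2 y x) :
    ContDiffAt ℝ 1 (d2 y) x :=
  (h.fderiv_right (m := 1) (by norm_num)).clm_apply contDiffAt_const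

theorem differentiableAt_eventually {y : ℝ × ℝ → ℝ} {x : ℝ × ℝ} (h : ContDiffAt ℝ 2 y x) :
    ∀ᶠ z in 𝓝 x, DifferentiableAt ℝ y z := by
  filter_upwards [h.eventually (by simp)] with z hz
  exact hz.differentiableAt (by norm_num)

end derivs

/-- second derivatives of a composition, at a point where `y` is `C²` -/
theorem lap_comp {β : ℝ → ℝ} {y : ℝ × ℝ → ℝ} {x : ℝ × ℝ} (hβ : ContDiff ℝ 2 β)
    (hy : ContDiffAt ℝ 2 y x) :
    d1 (d1 (fun z => β (y z))) x + d2 (d2 (fun z => β (y z))) x =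
      deriv (deriv β) (y x) * (d1 y x ^ 2 + d2 y x ^ 2) +
        deriv β (y x) * (d1 (d1 y) x + d2 (d2 y) x) := by
  have hβd : Differentiable ℝ β := hβ.differentiable (by norm_num)
  have hβ' : ContDiff ℝ 1 (deriv β) := by
    have h : ContDiff ℝ (1 + 1) β := by
      have : (1 + 1 : WithTop ℕ∞) = 2 := by norm_num
      rw [this]
      exact hβ
    exact (contDiff_succ_iff_deriv.1 h).2.2
  have hβ'd : Differentiable ℝ (deriv β) := hβ'.differentiable (by norm_num)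
  have hyd : DifferentiableAt ℝ y x := hy.differentiableAt (by norm_num)
  have e1 : d1 (fun z => β (y z)) =ᶠ[𝓝 x] fun z => deriv β (y z) * d1 y z := by
    filter_upwards [differentiableAt_eventually hy] with z hz
    exact d1_comp (hβd _) hz
  have e2 : d2 (fun z => β (y z)) =ᶠ[𝓝 x] fun z => deriv β (y z) * d2 y z := by
    filter_upwards [differentiableAt_eventually hy] with z hz
    exact d2_comp (hβd _) hz
  have hb : DifferentiableAt ℝ (fun z => deriv β (y z)) x := (hβ'd (y x)).comp x hyd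
  rw [d1_congr e1, d2_congr e2,
    Pool.Agent.H23.EH.d1_mul hb ((contDiffAt_d1 hy).differentiableAt (by norm_num)),
    Pool.Agent.H23.EH.d2_mul hb ((contDiffAt_d2 hy).differentiableAt (by norm_num)),
    d1_comp (hβ'd _) hyd, d2_comp (hβ'd _) hyd]
  ring

theorem deriv_zero_of_const {β : ℝ → ℝ} {b c : ℝ} (hβ : Differentiable ℝ β)
    (hb : ∀ t ≤ b, β t = c) : ∀ t ≤ b, deriv β t = 0 := by
  intro t ht
  have h2 : HasDerivWithinAt β (deriv β t) (Iic t) t := (hβ t).hasDerivAt.hasDerivWithinAt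
  have h3 : HasDerivWithinAt β 0 (Iic t) t := by
    refine (hasDerivWithinAt_const t (Iic t) c).congr (fun s hs => ?_) ?_
    · exact hb _ (le_trans hs ht)
    · exact hb _ ht
  exact (uniqueDiffWithinAt_Iic t).eq_deriv _ h2 h3

/-- the Laplacian of the truncation -/
theorem lap_trunc {y : ℝ × ℝ → ℝ} {b c : ℝ} {β : ℝ → ℝ} (hβ : ContDiff ℝ 2 β)
    (hb : ∀ t ≤ b, β t = c) (hy : LocHarm y b) (x : ℝ × ℝ) :
    d1 (d1 (fun z => β (y z))) x + d2 (d2 (fun z => β (y z))) x =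
      deriv (deriv β) (y x) * (d1 y x ^ 2 + d2 y x ^ 2) := by
  rcases hy x with h | ⟨h, h0⟩
  · have hβd : Differentiable ℝ β := hβ.differentiable (by norm_num)
    have hβ' : ContDiff ℝ 1 (deriv β) := by
      have h : ContDiff ℝ (1 + 1) β := by
        have : (1 + 1 : WithTop ℕ∞) = 2 := by norm_num
        rw [this]
        exact hβ
      exact (contDiff_succ_iff_deriv.1 h).2.2
    have e0 : (fun z => β (y z)) =ᶠ[𝓝 x] fun _ => c := by
      filter_upwards [h] with x' hx'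
      exact hb _ hx'
    have e1 : d1 (fun z => β (y z)) =ᶠ[𝓝 x] fun _ => 0 := by
      filter_upwards [d1_eventually e0] with z hz
      rw [hz, d1_const]
    have e2 : d2 (fun z => β (y z)) =ᶠ[𝓝 x] fun _ => 0 := by
      filter_upwards [d2_eventually e0] with z hz
      rw [hz, d2_const]
    have h4 : deriv (deriv β) (y x) = 0 :=
      deriv_zero_of_const (hβ'.differentiable (by norm_num)) (deriv_zero_of_const hβd hb) _
        h.self_of_nhds
    rw [d1_congr e1, d2_congr e2, d1_const, d2_const, h4]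
    ring
  · rw [lap_comp hβ h, h0]
    ring

/-- for convex `β` the truncation is subharmonic -/
theorem lap_trunc_nonneg {y : ℝ × ℝ → ℝ} {b c : ℝ} {β : ℝ → ℝ} (hβ : ContDiff ℝ 2 β)
    (hb : ∀ t ≤ b, β t = c) (hy : LocHarm y b) (hconv : ∀ t, 0 ≤ deriv (deriv β) t) (x : ℝ × ℝ) :
    0 ≤ d1 (d1 (fun z => β (y z))) x + d2 (d2 (fun z => β (y z))) x := by
  rw [lap_trunc hβ hb hy]
  have := hconv (y x)
  positivity

/-! ### composition with `pt (l, φ) = l + i φ` -/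

/-- `(l, φ) ↦ l + i φ` -/
def pt : ℝ × ℝ →L[ℝ] ℂ :=
  (Complex.ofRealCLM.comp (ContinuousLinearMap.fst ℝ ℝ ℝ)) +
    (Complex.I • Complex.ofRealCLM.comp (ContinuousLinearMap.snd ℝ ℝ ℝ))

theorem pt_apply (x : ℝ × ℝ) : pt x = (x.1 : ℂ) + Complex.I * x.2 := by
  simp [pt]

theorem harm_pt {u : ℂ → ℝ} {x : ℝ × ℝ} (h : InnerProductSpace.HarmonicAt u (pt x)) :
    ContDiffAt ℝ 2 (fun z => u (pt z)) x ∧
      d1 (d1 (fun z => u (pt z))) x + d2 (d2 (fun z => u (pt z))) x = 0 := by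
  obtain ⟨hc, hl⟩ := h
  have hcomp : ContDiffAt ℝ 2 (fun z => u (pt z)) x := hc.comp x pt.contDiff.contDiffAt
  refine ⟨hcomp, ?_⟩
  have hd : ∀ᶠ z in 𝓝 x, DifferentiableAt ℝ u (pt z) := by
    have h1 : ∀ᶠ w in 𝓝 (pt x), DifferentiableAt ℝ u w := by
      filter_upwards [hc.eventually (by simp)] with w hw
      exact hw.differentiableAt (by norm_num)
    exact pt.continuous.continuousAt.eventually h1
  have hfd : ∀ᶠ z in 𝓝 x, fderiv ℝ (fun z => u (pt z)) z = (fderiv ℝ u (pt z)).comp pt := by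
    filter_upwards [hd] with z hz
    exact (hz.hasFDerivAt.comp z pt.hasFDerivAt).fderiv
  have e1 : d1 (fun z => u (pt z)) =ᶠ[𝓝 x] fun z => fderiv ℝ u (pt z) 1 := by
    filter_upwards [hfd] with z hz
    unfold d1
    rw [hz]
    simp [pt_apply]
  have e2 : d2 (fun z => u (pt z)) =ᶠ[𝓝 x] fun z => fderiv ℝ u (pt z) Complex.I := by
    filter_upwards [hfd] with z hz
    unfold d2
    rw [hz]
    simp [pt_apply]
  have hf : DifferentiableAt ℝ (fderiv ℝ u) (pt x) :=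
    (hc.fderiv_right (m := 1) (by norm_num)).differentiableAt (by norm_num)
  have key : ∀ (v : ℂ) (a : ℝ × ℝ), fderiv ℝ (fun z => fderiv ℝ u (pt z) v) x a =
      fderiv ℝ (fderiv ℝ u) (pt x) (pt a) v := by
    intro v a
    have h1 : HasFDerivAt (fun z => fderiv ℝ u (pt z)) ((fderiv ℝ (fderiv ℝ u) (pt x)).comp pt) x :=
      hf.hasFDerivAt.comp x pt.hasFDerivAt
    have h2 := h1.clm_apply (hasFDerivAt_const v x)
    rw [h2.fderiv]
    simp
  have hl0 : Laplacian.laplacian u (pt x) = 0 := hl.self_of_nhds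
  rw [InnerProductSpace.laplacian_eq_iteratedFDeriv_complexPlane] at hl0
  simp only [iteratedFDeriv_two_apply] at hl0
  rw [d1_congr e1, d2_congr e2]
  unfold d1 d2
  rw [key, key]
  simpa [pt_apply] using hl0

/-! ### the polynomial side -/

/-- `(1/n) log |Q(e^{l + iφ})|` -/
def yQ (Q : ℂ[X]) (x : ℝ × ℝ) : ℝ :=
  (1 / (Q.natDegree : ℝ)) * Real.log ‖Q.eval (Complex.exp (pt x))‖

theorem yQ_periodic (Q : ℂ[X]) (l φ : ℝ) : yQ Q (l, φ + 2 * π) = yQ Q (l, φ) := by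
  unfold yQ
  congr 3
  rw [pt_apply, pt_apply]
  simp only
  push_cast
  rw [mul_add, ← add_assoc, Complex.exp_add _ (Complex.I * (2 * π))]
  rw [mul_comm Complex.I (2 * (π : ℂ)), Complex.exp_two_pi_mul_I, mul_one]

theorem locHarm_yQ (Q : ℂ[X]) {b : ℝ} (hb : 0 ≤ b) : LocHarm (yQ Q) b := by
  intro x
  have hcont : Continuous fun x : ℝ × ℝ => Q.eval (Complex.exp (pt x)) :=
    Q.continuous.comp (Complex.continuous_exp.comp pt.continuous)
  by_cases h0 : Q.eval (Complex.exp (pt x)) = 0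
  · left
    have h1 : ∀ᶠ x' in 𝓝 x, ‖Q.eval (Complex.exp (pt x'))‖ < 1 := by
      refine hcont.norm.continuousAt.eventually_lt continuousAt_const ?_
      rw [h0, norm_zero]
      exact one_pos
    filter_upwards [h1] with x' hx'
    have h2 : Real.log ‖Q.eval (Complex.exp (pt x'))‖ ≤ 0 :=
      Real.log_nonpos (norm_nonneg _) hx'.le
    have h3 : yQ Q x' ≤ 0 := mul_nonpos_of_nonneg_of_nonpos (by positivity) h2
    linarith
  · right
    have ha : AnalyticAt ℂ (fun w => Q.eval (Complex.exp w)) (pt x) := by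
      have h1 : Differentiable ℂ (fun w => Q.eval (Complex.exp w)) :=
        Q.differentiable.comp Complex.differentiable_exp
      exact h1.analyticAt _
    have hh := (ha.harmonicAt_log_norm h0).const_smul (c := 1 / (Q.natDegree : ℝ))
    exact harm_pt hh

/-- the smooth truncation of `yQ` is `C²` -/
theorem contDiff_prof_yQ (Q : ℂ[X]) {d : ℝ} (hd : 0 < d) :
    ContDiff ℝ 2 (fun x => prof d (yQ Q x)) :=
  contDiff_trunc (by exact_mod_cast contDiff_infty.1 contDiff_prof 2) (fun _ ht => prof_of_le hd ht)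
    (locHarm_yQ Q hd.le)

/-- `|Q(0)| < 1`: `yQ < 0` far to the left, uniformly in `φ` -/
theorem yQ_left (Q : ℂ[X]) (hn : Q.natDegree ≠ 0) (h0 : ‖Q.eval 0‖ < 1) :
    ∃ l₁ : ℝ, ∀ l ≤ l₁, ∀ φ : ℝ, yQ Q (l, φ) ≤ 0 := by
  have hc : ContinuousAt (fun w : ℂ => ‖Q.eval w‖) 0 := Q.continuous.norm.continuousAt
  have h1 : ∀ᶠ w in 𝓝 (0 : ℂ), ‖Q.eval w‖ < 1 := hc.eventually_lt continuousAt_const h0
  obtain ⟨δ, hδ, hb⟩ := Metric.eventually_nhds_iff.1 h1
  refine ⟨Real.log (δ / 2), fun l hl φ => ?_⟩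
  have h2 : ‖Complex.exp (pt (l, φ))‖ = Real.exp l := by
    rw [Complex.norm_exp, pt_apply]
    simp
  have h3 : Real.exp l ≤ δ / 2 := by
    have := Real.exp_le_exp.2 hl
    rwa [Real.exp_log (by positivity)] at this
  have h4 : ‖Q.eval (Complex.exp (pt (l, φ)))‖ < 1 := hb (by
    rw [dist_zero_right, h2]
    linarith)
  exact mul_nonpos_of_nonneg_of_nonpos (by positivity) (Real.log_nonpos (norm_nonneg _) h4.le)

/-- `yQ` of a product of linear factors -/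
theorem yQ_lap (Q : ℂ[X]) {d : ℝ} (hd : 0 < d) (x : ℝ × ℝ) :
    d1 (d1 (fun z => prof d (yQ Q z))) x + d2 (d2 (fun z => prof d (yQ Q z))) x =
      deriv (prof' d) (yQ Q x) * (d1 (yQ Q) x ^ 2 + d2 (yQ Q) x ^ 2) := by
  rw [lap_trunc (by exact_mod_cast contDiff_infty.1 contDiff_prof 2)
    (fun _ ht => prof_of_le hd ht) (locHarm_yQ Q hd.le), deriv_prof hd]

/-- the Laplacian of the truncation vanishes where `yQ ≥ 3 d` -/
theorem yQ_lap_eq_zero (Q : ℂ[X]) {d : ℝ} (hd : 0 < d) (x : ℝ × ℝ) (hx : 3 * d ≤ yQ Q x) :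
    d1 (d1 (fun z => prof d (yQ Q z))) x + d2 (d2 (fun z => prof d (yQ Q z))) x = 0 := by
  rw [yQ_lap Q hd, deriv_prof'_of_ge hd hx, zero_mul]

end Pool.Agent.H64.EH
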