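import Pool.Agent.H24.EH.Defs
import Pool.Agent.H64.EH.Trunc

/-!
# EHP (S06849), block (Y1): `YData (yQ a)`
-/

set_option autoImplicit false

open MeasureTheory Set Filter Topology
open scoped Real

noncomputable section

namespace Pool.Agent.H64.EHY

open Pool.Agent.H23.EH (d1 d2)
open Pool.Agent.H64.EH (pt pt_apply harm_pt d1_congr d1_eventually d2_congr d2_eventually)
open Pool.Agent.H24.EH (ex gQ yQ YData)

theorem ex_eq (x : ℝ × ℝ) : ex x = Complex.exp (pt x) := by
  rw [ex, pt_apply, mul_comm Complex.I]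

theorem ex_per (l φ : ℝ) : ex (l, φ + 2 * π) = ex (l, φ) := by
  unfold ex
  simp only
  push_cast
  rw [add_mul, ← add_assoc, Complex.exp_add _ (2 * (π : ℂ) * Complex.I), Complex.exp_two_pi_mul_I,
    mul_one]

theorem continuous_ex : Continuous ex := by
  unfold ex
  fun_prop

variable {n : ℕ} (a : Fin n → ℂ)

theorem continuous_gQ : Continuous (gQ a) := by
  unfold gQ
  have h : Continuous fun z : ℂ => ‖∏ j, (z - a j)‖ := by fun_prop
  exact continuous_const.mul (Real.continuous_posLog.comp h)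

theorem gQ_nonneg (z : ℂ) : 0 ≤ gQ a z :=
  mul_nonneg (by positivity) Real.posLog_nonneg

/-- where `yQ > 0` it is locally `(1/n) log |Q|` -/
theorem yQ_eventually {x : ℝ × ℝ} (hx : 0 < yQ a x) :
    ∏ j, (Complex.exp (pt x) - a j) ≠ 0 ∧
    yQ a =ᶠ[𝓝 x] fun x' => (1 / (n : ℝ)) * Real.log ‖∏ j, (Complex.exp (pt x') - a j)‖ := by
  have h1 : 1 < ‖∏ j, (ex x - a j)‖ := by
    by_contra hcon
    have h2 : Real.posLog ‖∏ j, (ex x - a j)‖ = 0 := by
      rw [Real.posLog_eq_zero_iff, abs_of_nonneg (norm_nonneg _)]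
      exact not_lt.1 hcon
    unfold yQ gQ at hx
    rw [h2, mul_zero] at hx
    exact lt_irrefl _ hx
  refine ⟨?_, ?_⟩
  · rw [ex_eq] at h1
    intro h0
    rw [h0, norm_zero] at h1
    linarith
  · have hc : Continuous fun x' : ℝ × ℝ => ‖∏ j, (ex x' - a j)‖ := by
      have := continuous_ex
      fun_prop
    filter_upwards [(hc.continuousAt (x := x)).eventually (lt_mem_nhds h1)] with x' hx'
    unfold yQ gQ
    rw [Real.posLog_eq_log (by rw [abs_of_nonneg (norm_nonneg _)]; exact hx'.le), ex_eq]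

theorem yQ_data {n : ℕ} (hn : 0 < n) (a : Fin n → ℂ) : YData (yQ a) where
  cont := (continuous_gQ a).comp continuous_ex
  nonneg x := gQ_nonneg a _
  per l φ := by
    unfold yQ
    rw [ex_per]
  smooth x hx := by
    obtain ⟨h0, he⟩ := yQ_eventually a hx
    refine ContDiffAt.congr_of_eventuallyEq ?_ he
    have h1 : ContDiffAt ℝ 3 (fun x' : ℝ × ℝ => ∏ j, (Complex.exp (pt x') - a j)) x := by
      have h2 : ContDiff ℝ 3 (fun x' : ℝ × ℝ => Complex.exp (pt x')) :=
        Complex.contDiff_exp.comp pt.contDiff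
      exact (contDiff_prod fun j _ => h2.sub contDiff_const).contDiffAt
    exact contDiffAt_const.mul ((h1.norm ℝ h0).log (norm_ne_zero_iff.2 h0))
  harm x hx := by
    obtain ⟨h0, he⟩ := yQ_eventually a hx
    have ha : AnalyticAt ℂ (fun w => ∏ j, (Complex.exp w - a j)) (pt x) := by
      have h1 : Differentiable ℂ (fun w : ℂ => ∏ j, (Complex.exp w - a j)) := by fun_prop
      exact h1.analyticAt _
    have hh := (ha.harmonicAt_log_norm h0).const_smul (c := 1 / (n : ℝ))
    have h2 := (harm_pt hh).2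
    have e1 := d1_congr (d1_eventually he)
    have e2 := d2_congr (d2_eventually he)
    rw [e1, e2]
    exact h2

end Pool.Agent.H64.EHY
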